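import Mathlib

set_option autoImplicit false

namespace Pool.Agent.Results.MP_47cbd1_al.NonInvertible

open ProfiniteGrp ProfiniteGrp.ProfiniteCompletion CategoryTheory

/-- The free profinite group on two generators: profinite completion of the free group. -/
abbrev F2hat : Type := (completion (GrpCat.of (FreeGroup (Fin 2))) : ProfiniteGrp)

/-- first generator -/
def x : F2hat := etaFn (GrpCat.of (FreeGroup (Fin 2))) (FreeGroup.of 0)

/-- second generator -/
def y : F2hat := etaFn (GrpCat.of (FreeGroup (Fin 2))) (FreeGroup.of 1)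

/-- The profinite completion of the integers (written multiplicatively). -/
abbrev Zhat : Type := (completion (GrpCat.of (Multiplicative ℤ)) : ProfiniteGrp)

/-- `hpow g lam` is the power `g ^ lam`: the continuous homomorphism from `Zhat` extending
`n ↦ g ^ n`, evaluated at `lam`. -/
noncomputable def hpow (g : F2hat) (lam : Zhat) : F2hat :=
  (lift (G := GrpCat.of (Multiplicative ℤ)) (P := completion (GrpCat.of (FreeGroup (Fin 2))))
    (GrpCat.ofHom (zpowersHom F2hat g))).hom lam

lemma hpow_mem (g : F2hat) (lam : Zhat) :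
    hpow g lam ∈ (Subgroup.zpowers g).topologicalClosure := by
  have hd := denseRange (GrpCat.of (Multiplicative ℤ))
  refine hd.induction_on (p := fun l => hpow g l ∈ (Subgroup.zpowers g).topologicalClosure) lam
    ?_ fun n => ?_
  · exact (Subgroup.isClosed_topologicalClosure _).preimage
      (lift (G := GrpCat.of (Multiplicative ℤ)) (P := completion (GrpCat.of (FreeGroup (Fin 2))))
        (GrpCat.ofHom (zpowersHom F2hat g))).hom.continuous
  · have := ConcreteCategory.congr_hom (lift_eta (G := GrpCat.of (Multiplicative ℤ))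
      (P := completion (GrpCat.of (FreeGroup (Fin 2)))) (GrpCat.ofHom (zpowersHom F2hat g))) n
    have h2 : hpow g (etaFn (GrpCat.of (Multiplicative ℤ)) n) = zpowersHom F2hat g n := this
    rw [h2]
    exact Subgroup.le_topologicalClosure _ ⟨n.toAdd, rfl⟩

def pa : Equiv.Perm (Fin 5) := ⟨![1, 2, 0, 3, 4], ![2, 0, 1, 3, 4], by decide, by decide⟩
def pb : Equiv.Perm (Fin 5) := ⟨![0, 1, 3, 4, 2], ![0, 1, 4, 2, 3], by decide, by decide⟩

lemma exists_ext (P : ProfiniteGrp.{0}) (a b : P) :
    ∃ φ : F2hat →ₜ* P, φ x = a ∧ φ y = b := by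
  let g : GrpCat.of (FreeGroup (Fin 2)) ⟶ GrpCat.of P := GrpCat.ofHom (FreeGroup.lift ![a, b])
  refine ⟨(lift g).hom, ?_, ?_⟩
  · have := ConcreteCategory.congr_hom (lift_eta g) (FreeGroup.of 0)
    refine this.trans ?_
    simp [g]
  · have := ConcreteCategory.congr_hom (lift_eta g) (FreeGroup.of 1)
    refine this.trans ?_
    simp [g]

lemma gen (H : Subgroup F2hat) (hH : IsClosed (H : Set F2hat)) (hx : x ∈ H) (hy : y ∈ H) (g : F2hat) :
    g ∈ H := by
  have hd := denseRange (GrpCat.of (FreeGroup (Fin 2)))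
  refine hd.induction_on (p := fun g => g ∈ H) g hH fun w => ?_
  change (eta (GrpCat.of (FreeGroup (Fin 2)))).hom w ∈ H
  induction w using FreeGroup.induction_on with
  | C1 => rw [map_one]; exact H.one_mem
  | of i =>
    fin_cases i
    · exact hx
    · exact hy
  | inv_of i h => rw [map_inv]; exact H.inv_mem h
  | mul a b ha hb => rw [map_mul]; exact H.mul_mem ha hb

lemma exists_pi : ∃ π : F2hat →* Equiv.Perm (Fin 5), π x = pa ∧ π y = pb ∧
    ∀ S : Set (Equiv.Perm (Fin 5)), IsClosed (π ⁻¹' S) := by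
  obtain ⟨φ, h1, h2⟩ := exists_ext (ofFiniteGrp (FiniteGrp.of (Equiv.Perm (Fin 5)))) pa pb
  refine ⟨φ.toMonoidHom, h1, h2, fun S => ?_⟩
  have : DiscreteTopology (ofFiniteGrp (FiniteGrp.of (Equiv.Perm (Fin 5)))) := ⟨rfl⟩
  exact (isClosed_discrete (α := ofFiniteGrp (FiniteGrp.of (Equiv.Perm (Fin 5)))) S).preimage
    φ.continuous

theorem result : ∃ f : F2hat, f ∈ (commutator F2hat).topologicalClosure ∧
    ∀ lam : Zhat,
      (∃ φ : F2hat →ₜ* F2hat, φ x = hpow x lam ∧ φ y = f⁻¹ * hpow y lam * f) ∧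
      ∀ φ : F2hat →ₜ* F2hat, φ x = hpow x lam → φ y = f⁻¹ * hpow y lam * f →
        ¬ Function.Surjective φ := by
  have key : ∀ a ∈ (Subgroup.zpowers x).topologicalClosure,
      ∀ b ∈ (Subgroup.zpowers y).topologicalClosure, ∀ φ : F2hat →ₜ* F2hat, φ x = a →
        φ y = (y * x * y⁻¹ * x⁻¹)⁻¹ * b * (y * x * y⁻¹ * x⁻¹) → ¬ Function.Surjective φ := by
    intro a ha b hb φ h1 h2 hs
    obtain ⟨π, hx, hy, hc⟩ := exists_pi
    let K : Subgroup F2hat := (MulAction.stabilizer (Equiv.Perm (Fin 5)) (3 : Fin 5)).comap π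
    have hK : IsClosed (K : Set F2hat) := hc (MulAction.stabilizer (Equiv.Perm (Fin 5)) (3 : Fin 5) : Set (Equiv.Perm (Fin 5)))
    have hxK : x ∈ K := by
      change π x • (3 : Fin 5) = 3
      rw [hx]; decide
    have haK : a ∈ K :=
      Subgroup.topologicalClosure_minimal _ ((Subgroup.zpowers_le).2 hxK) hK ha
    let f : F2hat := y * x * y⁻¹ * x⁻¹
    let K' : Subgroup F2hat := K.comap (MulAut.conj f⁻¹).toMonoidHom
    have hK' : IsClosed (K' : Set F2hat) := by
      have hcont : Continuous fun g : F2hat => f⁻¹ * g * f⁻¹⁻¹ := by fun_prop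
      exact hK.preimage hcont
    have hyK : y ∈ K' := by
      change π (f⁻¹ * y * f⁻¹⁻¹) • (3 : Fin 5) = 3
      simp only [f, map_mul, map_inv, hx, hy]
      decide
    have hbK : b ∈ K' :=
      Subgroup.topologicalClosure_minimal _ ((Subgroup.zpowers_le).2 hyK) hK' hb
    have hall := gen (K.comap φ.toMonoidHom) (hK.preimage φ.continuous)
      (by change φ x ∈ K; rw [h1]; exact haK)
      (by
        change φ y ∈ K
        rw [h2]
        have : f⁻¹ * b * f⁻¹⁻¹ ∈ K := hbK
        rwa [inv_inv] at this)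
    obtain ⟨g, hg⟩ := hs y
    have : φ g ∈ K := hall g
    rw [hg] at this
    change π y • (3 : Fin 5) = 3 at this
    rw [hy] at this
    revert this
    decide
  refine ⟨y * x * y⁻¹ * x⁻¹, ?_, fun lam => ⟨?_, key _ (hpow_mem x lam) _ (hpow_mem y lam)⟩⟩
  · refine Subgroup.le_topologicalClosure _ ?_
    exact Subgroup.commutator_mem_commutator (Subgroup.mem_top y) (Subgroup.mem_top x)
  · exact exists_ext (completion (GrpCat.of (FreeGroup (Fin 2)))) _ _

end Pool.Agent.Results.MP_47cbd1_al.NonInvertible
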